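import Pool.Agent.Helper60_Tsirelson.Exist
import Pool.Agent.Helper60_Tsirelson.Value

/-!
# The separation constant of the unit ball of Tsirelson space equals `2`

The vectors `e_{2j} + e_{2j+1}`, `j ≥ 2`, have norm `1` and their mutual distances are equal to `2`.
-/

set_option autoImplicit false

open Pool.Agent.Helper60.Tsirelson

universe u

/-- Tsirelson space `T` exists, and `P(T) = 2`; moreover the supremum defining `P(T)` is attained,
i.e. the unit ball of `T` contains an infinite `2`-separated set. -/
theorem Pool.Agent.Results.MP_6d986f_an.SeparationConstant.result :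
    (∃ (X : Type) (_ : NormedAddCommGroup X) (_ : NormedSpace ℝ X), IsTsirelsonSpace X) ∧
    ∀ (X : Type u) [NormedAddCommGroup X] [NormedSpace ℝ X], IsTsirelsonSpace X →
      sepConst X = 2 ∧ (2 : ℝ) ∈ sepSet X :=
  ⟨exists_tsirelson, fun _ _ _ h => ⟨sepConst_eq_two h, two_mem_sepSet h⟩⟩
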